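import Mathlib

/-!
# A small automaton and the number of its accepted words

States: `0, 1, 2` (closed, open `U`-class, open `V`-class) for partitions without a mixed class;
`3, 4` (closed, open) to the left of the mixed class, `5` inside the mixed class, `6, 7` (closed,
open) to the right of it.
-/

set_option autoImplicit false

namespace Pool.Agent.K4H74.Phylo

/-- letters: singleton, maximum of a class which is not a singleton, other elements. -/
inductive L | s | e | c
deriving DecidableEq

/-- letters with the weight one: the maxima of the classes. -/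
def wt : L → ℕ
  | .s => 1
  | .e => 1
  | .c => 0

/-- transitions; `true` is the type `U`, `false` the type `V`. -/
def tr : ℕ → Bool → List (L × ℕ)
  | 0, true => [(.s, 0), (.c, 1)]
  | 0, false => [(.s, 0), (.c, 2)]
  | 1, true => [(.s, 1), (.c, 1), (.e, 0)]
  | 1, false => [(.s, 1)]
  | 2, true => [(.s, 2)]
  | 2, false => [(.s, 2), (.c, 2), (.e, 0)]
  | 3, true => [(.s, 3), (.c, 5), (.c, 4)]
  | 3, false => [(.s, 3), (.c, 5)]
  | 4, true => [(.s, 4), (.c, 4), (.e, 3)]
  | 4, false => [(.s, 4)]
  | 5, _ => [(.s, 5), (.c, 5), (.e, 6)]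
  | 6, true => [(.s, 6)]
  | 6, false => [(.s, 6), (.c, 7)]
  | 7, true => [(.s, 7)]
  | 7, false => [(.s, 7), (.c, 7), (.e, 6)]
  | _, _ => []

def fin : ℕ → Bool
  | 0 => true
  | 6 => true
  | _ => false

/-- the accepted words of weight `k`, listed along the paths. -/
def words : List Bool → ℕ → ℕ → List (List L)
  | [], q, k => if fin q = true ∧ k = 0 then [[]] else []
  | t :: ts, q, k => (tr q t).flatMap fun p =>
      if wt p.1 ≤ k then (words ts p.2 (k - wt p.1)).map (p.1 :: ·) else []

/-- the number of the accepting paths of weight `k`. -/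
def cnt : List Bool → ℕ → ℕ → ℕ
  | [], q, k => if fin q = true ∧ k = 0 then 1 else 0
  | t :: ts, q, k => ((tr q t).map fun p =>
      if wt p.1 ≤ k then cnt ts p.2 (k - wt p.1) else 0).sum

theorem length_words (ts : List Bool) : ∀ q k, (words ts q k).length = cnt ts q k := by
  induction ts with
  | nil =>
    intro q k
    simp only [words, cnt]
    split_ifs <;> rfl
  | cons t ts ih =>
    intro q k
    simp only [words, cnt, List.length_flatMap]
    congr 1
    apply List.map_congr_left
    intro p _
    split_ifs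
    · rw [List.length_map, ih]
    · rfl

structure V where
  a0 : ℕ
  a1 : ℕ
  a2 : ℕ
  a3 : ℕ
  a4 : ℕ
  a5 : ℕ
  a6 : ℕ
  a7 : ℕ

/-- one step backwards, for the numbers `∑ cnt k * B ^ k`. -/
def step (B : ℕ) (t : Bool) (v : V) : V :=
  match t with
  | true =>
    { a0 := B * v.a0 + v.a1
      a1 := B * v.a1 + v.a1 + B * v.a0
      a2 := B * v.a2
      a3 := B * v.a3 + v.a5 + v.a4
      a4 := B * v.a4 + v.a4 + B * v.a3
      a5 := B * v.a5 + v.a5 + B * v.a6
      a6 := B * v.a6
      a7 := B * v.a7 }
  | false =>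
    { a0 := B * v.a0 + v.a2
      a1 := B * v.a1
      a2 := B * v.a2 + v.a2 + B * v.a0
      a3 := B * v.a3 + v.a5
      a4 := B * v.a4
      a5 := B * v.a5 + v.a5 + B * v.a6
      a6 := B * v.a6 + v.a7
      a7 := B * v.a7 + v.a7 + B * v.a6 }

def run (B : ℕ) : List Bool → V
  | [] => ⟨1, 0, 0, 0, 0, 0, 1, 0⟩
  | t :: ts => step B t (run B ts)

def V.get (v : V) : ℕ → ℕ
  | 0 => v.a0
  | 1 => v.a1
  | 2 => v.a2
  | 3 => v.a3
  | 4 => v.a4
  | 5 => v.a5
  | 6 => v.a6
  | 7 => v.a7
  | _ => 0

def ty (i : ℕ) : Bool := decide (i % 8 < 5)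

def tys (n : ℕ) : List Bool := (List.range n).map ty

end Pool.Agent.K4H74.Phylo
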