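import Pool.Agent.K4H74.Phylo.Auto

set_option autoImplicit false

namespace Pool.Agent.K4H74.Phylo
open Finset

theorem get_step (B : ℕ) (t : Bool) (v : V) (q : ℕ) :
    (step B t v).get q = ((tr q t).map fun p => B ^ wt p.1 * v.get p.2).sum := by
  rcases q with _ | _ | _ | _ | _ | _ | _ | _ | q <;> cases t <;>
    simp [step, V.get, tr, wt] <;> ring

theorem list_exchange {α : Type*} (l : List α) (S : Finset ℕ) (g : α → ℕ → ℕ) (h : ℕ → ℕ) :
    (l.map fun p => ∑ k ∈ S, g p k * h k).sum = ∑ k ∈ S, (l.map fun p => g p k).sum * h k := by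
  induction l with
  | nil => simp
  | cons a l ih =>
    simp only [List.map_cons, List.sum_cons, ih, add_mul, Finset.sum_add_distrib]

theorem run_eq (B : ℕ) (ts : List Bool) : ∀ q m, ts.length < m →
    (run B ts).get q = ∑ k ∈ range m, cnt ts q k * B ^ k := by
  induction ts with
  | nil =>
    intro q m hm
    obtain ⟨m, rfl⟩ : ∃ m', m = m' + 1 := ⟨m - 1, by simp at hm; omega⟩
    rw [Finset.sum_range_succ']
    rcases q with _ | _ | _ | _ | _ | _ | _ | _ | q <;> simp [run, V.get, cnt, fin]
  | cons t ts ih =>
    intro q m hm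
    have hrun : run B (t :: ts) = step B t (run B ts) := rfl
    rw [hrun, get_step]
    have key : ∀ p : L × ℕ, B ^ wt p.1 * (run B ts).get p.2 =
        ∑ k ∈ range m, (if wt p.1 ≤ k then cnt ts p.2 (k - wt p.1) else 0) * B ^ k := by
      intro p
      rw [List.length_cons] at hm
      obtain ⟨m, rfl⟩ : ∃ m', m = m' + 1 := ⟨m - 1, by omega⟩
      rcases hw : p.1 with _ | _ | _
      · simp only [wt]
        rw [Finset.sum_range_succ', ih p.2 m (by omega), Finset.mul_sum]
        simp only [nonpos_iff_eq_zero, one_ne_zero, if_false, zero_mul, add_zero,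
          Nat.le_add_left, if_true, Nat.add_sub_cancel]
        exact Finset.sum_congr rfl fun k _ => by ring
      · simp only [wt]
        rw [Finset.sum_range_succ', ih p.2 m (by omega), Finset.mul_sum]
        simp only [nonpos_iff_eq_zero, one_ne_zero, if_false, zero_mul, add_zero,
          Nat.le_add_left, if_true, Nat.add_sub_cancel]
        exact Finset.sum_congr rfl fun k _ => by ring
      · simp only [wt, pow_zero, one_mul, Nat.zero_le, if_true, Nat.sub_zero]
        exact ih p.2 (m + 1) (by omega)
    simp only [key, cnt]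
    exact list_exchange (tr q t) (range m)
      (fun p k => if wt p.1 ≤ k then cnt ts p.2 (k - wt p.1) else 0) (fun k => B ^ k)

theorem length_tr (q : ℕ) (t : Bool) : (tr q t).length ≤ 3 := by
  rcases q with _ | _ | _ | _ | _ | _ | _ | _ | q <;> cases t <;> simp [tr]

theorem cnt_le (ts : List Bool) : ∀ q k, cnt ts q k ≤ 3 ^ ts.length := by
  induction ts with
  | nil =>
    intro q k
    simp only [cnt, List.length_nil, pow_zero]
    split_ifs <;> omega
  | cons t ts ih =>
    intro q k
    simp only [cnt, List.length_cons]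
    refine (List.sum_le_card_nsmul _ (3 ^ ts.length) ?_).trans ?_
    · intro x hx
      rw [List.mem_map] at hx
      obtain ⟨p, -, rfl⟩ := hx
      split_ifs
      · exact ih _ _
      · exact Nat.zero_le _
    · rw [List.length_map, smul_eq_mul, pow_succ, mul_comm]
      exact Nat.mul_le_mul_left _ (length_tr q t)

theorem digit (B : ℕ) : ∀ (j m : ℕ) (f : ℕ → ℕ), (∀ k, f k < B) → j < m →
    (∑ k ∈ range m, f k * B ^ k) / B ^ j % B = f j := by
  intro j
  induction j with
  | zero =>
    intro m f hf hm
    obtain ⟨m, rfl⟩ : ∃ m', m = m' + 1 := ⟨m - 1, by omega⟩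
    rw [Finset.sum_range_succ', pow_zero, Nat.div_one, mul_one]
    have : ∑ k ∈ range m, f (k + 1) * B ^ (k + 1) = B * ∑ k ∈ range m, f (k + 1) * B ^ k := by
      rw [Finset.mul_sum]
      exact Finset.sum_congr rfl fun k _ => by ring
    rw [this, Nat.mul_add_mod]
    exact Nat.mod_eq_of_lt (hf 0)
  | succ j ih =>
    intro m f hf hm
    obtain ⟨m, rfl⟩ : ∃ m', m = m' + 1 := ⟨m - 1, by omega⟩
    have hB : 0 < B := (Nat.zero_le _).trans_lt (hf 0)
    rw [Finset.sum_range_succ', pow_zero, mul_one]
    have : ∑ k ∈ range m, f (k + 1) * B ^ (k + 1) = B * ∑ k ∈ range m, f (k + 1) * B ^ k := by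
      rw [Finset.mul_sum]
      exact Finset.sum_congr rfl fun k _ => by ring
    rw [this, pow_succ, mul_comm (B ^ j) B, ← Nat.div_div_eq_div_mul, Nat.mul_add_div hB,
      Nat.div_eq_of_lt (hf 0), add_zero]
    exact ih m (fun k => f (k + 1)) (fun k => hf (k + 1)) (by omega)

theorem cnt_eq (B : ℕ) (ts : List Bool) (hB : 3 ^ ts.length < B) (q k : ℕ)
    (hk : k ≤ ts.length) : cnt ts q k = (run B ts).get q / B ^ k % B := by
  rw [run_eq B ts q (ts.length + 1) (by omega),
    digit B k (ts.length + 1) (fun k => cnt ts q k) (fun k => (cnt_le ts q k).trans_lt hB) (by omega)]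

theorem mem_words_of_path : ∀ (n : ℕ) (τ : ℕ → Bool) (w : ℕ → L) (st : ℕ → ℕ),
    (∀ i < n, (w i, st (i + 1)) ∈ tr (st i) (τ i)) → fin (st n) = true →
    (List.range n).map w ∈ words ((List.range n).map τ) (st 0) (∑ i ∈ range n, wt (w i)) := by
  intro n
  induction n with
  | zero =>
    intro τ w st _ hf
    simp [words, hf]
  | succ n ih =>
    intro τ w st h hf
    rw [List.range_succ_eq_map, List.map_cons, List.map_cons, List.map_map, List.map_map,
      Finset.sum_range_succ']
    simp only [words, List.mem_flatMap]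
    refine ⟨(w 0, st 1), h 0 (by omega), ?_⟩
    have h1 := ih (fun i => τ (i + 1)) (fun i => w (i + 1)) (fun i => st (i + 1))
      (fun i hi => h (i + 1) (by omega)) hf
    simp only [zero_add] at h1
    have h2 : wt (w 0, st 1).1 ≤ ∑ i ∈ range n, wt (w (i + 1)) + wt (w 0) := Nat.le_add_left _ _
    rw [if_pos h2]
    have h3 : ∑ i ∈ range n, wt (w (i + 1)) + wt (w 0) - wt (w 0, st 1).1 =
      ∑ i ∈ range n, wt (w (i + 1)) := Nat.add_sub_cancel _ _
    rw [h3, List.mem_map]
    exact ⟨_, h1, rfl⟩

theorem path_of_mem (ts : List Bool) : ∀ q k as, as ∈ words ts q k → as.length = ts.length ∧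
    ∃ st : ℕ → ℕ, st 0 = q ∧
      (∀ i < ts.length, (as.getD i .s, st (i + 1)) ∈ tr (st i) (ts.getD i false)) ∧
      fin (st ts.length) = true ∧ k = ∑ i ∈ range ts.length, wt (as.getD i .s) := by
  induction ts with
  | nil =>
    intro q k as h
    simp only [words] at h
    split_ifs at h with h1
    · rw [List.mem_singleton] at h
      subst h
      refine ⟨rfl, fun _ => q, rfl, by simp, h1.1, ?_⟩
      simp [h1.2]
    · simp at h
  | cons t ts ih =>
    intro q k as h
    simp only [words, List.mem_flatMap] at h
    obtain ⟨p, hp, h⟩ := h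
    split_ifs at h with h1
    · rw [List.mem_map] at h
      obtain ⟨bs, hbs, rfl⟩ := h
      obtain ⟨h2, st, h3, h4, h5, h6⟩ := ih _ _ _ hbs
      refine ⟨by simp [h2], fun i => Nat.casesOn i q st, rfl, ?_, h5, ?_⟩
      · intro i hi
        rcases i with _ | i
        · simp only [List.getD_cons_zero]
          show (p.1, st 0) ∈ tr q t
          rw [h3]
          exact hp
        · simp only [List.getD_cons_succ]
          exact h4 i (by simpa using hi)
      · rw [List.length_cons, Finset.sum_range_succ']
        simp only [List.getD_cons_zero, List.getD_cons_succ]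
        omega
    · simp at h

theorem nodup_words (ts : List Bool) : ∀ q k, q ≤ 2 → (words ts q k).Nodup := by
  induction ts with
  | nil =>
    intro q k _
    simp only [words]
    split_ifs <;> simp
  | cons t ts ih =>
    intro q k hq
    simp only [words]
    have hc : ∀ p : L × ℕ, p.2 ≤ 2 → (if wt p.1 ≤ k then
        (words ts p.2 (k - wt p.1)).map (p.1 :: ·) else []).Nodup := by
      intro p hp
      split_ifs
      · exact (ih p.2 _ hp).map (fun a b h => by simpa using h)
      · exact List.nodup_nil
    have hd : ∀ p p' : L × ℕ, p.1 ≠ p'.1 → List.Disjoint (if wt p.1 ≤ k then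
        (words ts p.2 (k - wt p.1)).map (p.1 :: ·) else []) (if wt p'.1 ≤ k then
        (words ts p'.2 (k - wt p'.1)).map (p'.1 :: ·) else []) := by
      intro p p' hpp x hx hx'
      split_ifs at hx hx'
      · rw [List.mem_map] at hx hx'
        obtain ⟨a, -, rfl⟩ := hx
        obtain ⟨b, -, hb⟩ := hx'
        exact hpp (List.cons.inj hb).1.symm
      · simp at hx'
      · simp at hx
      · simp at hx
    rw [List.nodup_flatMap]
    interval_cases q <;> cases t <;> simp only [tr] <;> refine ⟨?_, ?_⟩
    all_goals first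
      | (intro x hx
         apply hc
         simp only [List.mem_cons, List.not_mem_nil, or_false] at hx
         rcases hx with rfl | rfl | rfl <;> norm_num)
      | (simp only [List.pairwise_cons, List.mem_cons, List.not_mem_nil, or_false, forall_eq_or_imp,
           forall_eq, List.Pairwise.nil, and_true, IsEmpty.forall_iff, implies_true, Function.onFun]
         first
           | exact ⟨⟨hd (L.s, _) (L.c, _) (by simp), hd (L.s, _) (L.e, _) (by simp)⟩,
               hd (L.c, _) (L.e, _) (by simp)⟩
           | exact hd (L.s, _) (L.c, _) (by simp)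
           | skip)

end Pool.Agent.K4H74.Phylo
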