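import Pool.Agent.K4H74.Phylo.Upper

set_option autoImplicit false

namespace Pool.Agent.K4H74.Phylo
open Finset Pool.Agent.R935.Phylo

variable {n : ℕ}

/-- the partition of a word. -/
def PW (w : Fin n → L) : Setoid (Fin n) :=
  R (univ.filter fun i => w i = .s) (univ.filter fun i => w i = .e)

theorem PW_iff {w : Fin n → L} {i j : Fin n} : PW w i j ↔
    i = j ∨ (w i ≠ .s ∧ w j ≠ .s ∧ ∀ e, w e = .e → (e < i ↔ e < j)) := by
  unfold PW
  rw [R_iff]
  simp

structure GoodW (w : Fin n → L) : Prop where
  next : ∀ x, w x = .c → ∃ y, x < y ∧ w y ≠ .s ∧ ∀ z, x < z → z < y → w z = .s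
  prev : ∀ x, w x = .e → ∃ y, y < x ∧ w y = .c ∧ ∀ z, y < z → z < x → w z = .s

theorem conv_PW (w : Fin n → L) : Conv 1 (PW w) := conv_R_of_fixed 1 fun _ _ => rfl

theorem lw_PW {w : Fin n → L} (h : GoodW w) (x : Fin n) : lw (PW w) x = w x := by
  cases hx : w x
  · apply lw_sing
    rw [mem_sing]
    intro y hy
    rw [PW_iff] at hy
    rcases hy with rfl | ⟨h1, -, -⟩
    · rfl
    · exact absurd hx h1
  · obtain ⟨y, h1, h2, h3⟩ := h.prev x hx
    have hyx : PW w y x := by
      rw [PW_iff]
      refine Or.inr ⟨by rw [h2]; simp, by rw [hx]; simp, ?_⟩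
      intro e he
      refine ⟨fun h => h.trans h1, fun h4 => ?_⟩
      by_contra h5
      rcases (not_lt.1 h5).lt_or_eq with h6 | h6
      · rw [h3 e h6 h4] at he
        exact absurd he (by simp)
      · subst h6
        rw [h2] at he
        exact absurd he (by simp)
    apply lw_max
    · exact not_sing_of_rel ((PW w).symm' hyx) h1.ne'
    · intro z hz
      by_contra h4
      rw [not_le] at h4
      rw [PW_iff] at hz
      rcases hz with rfl | ⟨-, -, h5⟩
      · exact lt_irrefl _ h4
      · exact lt_irrefl _ ((h5 x hx).2 h4)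
  · obtain ⟨y, h1, h2, h3⟩ := h.next x hx
    have hxy : PW w x y := by
      rw [PW_iff]
      refine Or.inr ⟨by rw [hx]; simp, h2, ?_⟩
      intro e he
      refine ⟨fun h => h.trans h1, fun h4 => ?_⟩
      by_contra h5
      rcases (not_lt.1 h5).lt_or_eq with h6 | h6
      · rw [h3 e h6 h4] at he
        exact absurd he (by simp)
      · subst h6
        rw [hx] at he
        exact absurd he (by simp)
    apply lw_notmax
    · exact not_sing_of_rel hxy h1.ne
    · intro h4
      exact absurd (h4 y hxy) (not_le.2 h1)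

theorem tr_le {q q' : ℕ} {a : L} {t : Bool} (hq : q ≤ 2) (h : (a, q') ∈ tr q t) : q' ≤ 2 := by
  interval_cases q <;> cases t <;> simp [tr] at h <;> omega

theorem tr_s {q q' : ℕ} {t : Bool} (hq : q ≤ 2) (h : (L.s, q') ∈ tr q t) : q' = q := by
  interval_cases q <;> cases t <;> simpa [tr] using h

theorem tr_e {q q' : ℕ} {t : Bool} (hq : q ≤ 2) (h : (L.e, q') ∈ tr q t) :
    q' = 0 ∧ (q = 1 ∧ t = true ∨ q = 2 ∧ t = false) := by
  interval_cases q <;> cases t <;> simp_all [tr]

theorem tr_c {q q' : ℕ} {t : Bool} (hq : q ≤ 2) (h : (L.c, q') ∈ tr q t) :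
    (t = true ∧ q' = 1 ∧ (q = 0 ∨ q = 1)) ∨ (t = false ∧ q' = 2 ∧ (q = 0 ∨ q = 2)) := by
  interval_cases q <;> cases t <;> simp_all [tr]

section path

variable {τ : ℕ → Bool} {a : ℕ → L} {st : ℕ → ℕ}

theorem st_le (h0 : st 0 = 0) (h : ∀ i < n, (a i, st (i + 1)) ∈ tr (st i) (τ i)) :
    ∀ i ≤ n, st i ≤ 2 := by
  intro i
  induction i with
  | zero => intro _; omega
  | succ i ih =>
    intro hi
    exact tr_le (ih (by omega)) (h i (by omega))

theorem stay (h0 : st 0 = 0) (h : ∀ i < n, (a i, st (i + 1)) ∈ tr (st i) (τ i)) (i : ℕ) :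
    ∀ j, i ≤ j → j ≤ n → (∀ z, i ≤ z → z < j → a z = .s) → st j = st i := by
  intro j hij
  induction j, hij using Nat.le_induction with
  | base => intro _ _; rfl
  | succ j hj ih =>
    intro hjn hs
    have h1 := h j (by omega)
    rw [hs j hj (by omega)] at h1
    rw [tr_s (st_le h0 h j (by omega)) h1]
    exact ih (by omega) (fun z hz hz' => hs z hz (by omega))

theorem stay_c (h0 : st 0 = 0) (h : ∀ i < n, (a i, st (i + 1)) ∈ tr (st i) (τ i)) (i : ℕ)
    (hi : a i = .c) :
    ∀ j, i + 1 ≤ j → j ≤ n → (∀ z, i ≤ z → z < j → a z ≠ .e) →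
      st j = if τ i = true then 1 else 2 := by
  intro j hij
  induction j, hij using Nat.le_induction with
  | base =>
    intro hin _
    have h1 := h i (by omega)
    rw [hi] at h1
    rcases tr_c (st_le h0 h i (by omega)) h1 with ⟨h2, h3, -⟩ | ⟨h2, h3, -⟩
    · rw [h2, h3, if_pos rfl]
    · rw [h2, h3, if_neg (by simp)]
  | succ j hj ih =>
    intro hjn hs
    have h1 := h j (by omega)
    have h2 := ih (by omega) (fun z hz hz' => hs z hz (by omega))
    have h3 := st_le h0 h j (by omega)
    cases ha : a j
    · rw [ha] at h1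
      rw [tr_s h3 h1, h2]
    · exact absurd ha (hs j (by omega) (by omega))
    · rw [ha] at h1
      rcases tr_c h3 h1 with ⟨h4, h5, h6⟩ | ⟨h4, h5, h6⟩
      · by_cases h7 : τ i = true
        · rw [h5, if_pos h7]
        · rw [if_neg h7] at h2
          omega
      · by_cases h7 : τ i = true
        · rw [if_pos h7] at h2
          omega
        · rw [h5, if_neg h7]

theorem fin_zero {q : ℕ} (hq : q ≤ 2) (h : fin q = true) : q = 0 := by
  interval_cases q <;> simp_all [fin]

theorem good_of_path (h0 : st 0 = 0) (h : ∀ i < n, (a i, st (i + 1)) ∈ tr (st i) (τ i))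
    (hf : fin (st n) = true) : GoodW (fun i : Fin n => a i) := by
  classical
  constructor
  · intro x hx
    have hx' : a x = .c := hx
    have hxn := x.2
    have h1 : st (x + 1) ≠ 0 := by
      rw [stay_c h0 h x hx' (x + 1) le_rfl (by omega) (by
        intro z hz hz'
        have : z = x := by omega
        rw [this, hx']
        simp)]
      split_ifs <;> omega
    have h2 : ∃ y, (x : ℕ) < y ∧ y < n ∧ a y ≠ .s := by
      by_contra hcon
      push Not at hcon
      apply h1
      rw [← stay h0 h (x + 1) n (by omega) le_rfl (fun z hz hz' => hcon z (by omega) hz')]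
      exact fin_zero (st_le h0 h n le_rfl) hf
    obtain ⟨h3, h4, h5⟩ := Nat.find_spec h2
    refine ⟨⟨Nat.find h2, h4⟩, Fin.lt_def.2 h3, h5, ?_⟩
    intro z hz hz'
    rw [Fin.lt_def] at hz hz'
    by_contra h6
    have := Nat.find_min h2 hz'
    exact this ⟨hz, z.2, h6⟩
  · intro x hx
    have hx' : a x = .e := hx
    have hxn := x.2
    have h1 : st x ≠ 0 := by
      have h2 := h x hxn
      rw [hx'] at h2
      have := (tr_e (st_le h0 h x (by omega)) h2).2
      omega
    have h2 : ((range x).filter fun y => a y ≠ .s).Nonempty := by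
      by_contra hcon
      rw [Finset.not_nonempty_iff_eq_empty, Finset.filter_eq_empty_iff] at hcon
      apply h1
      rw [stay h0 h 0 x (Nat.zero_le _) (by omega), h0]
      intro z _ hz
      have := hcon (Finset.mem_range.2 hz)
      simpa using this
    obtain ⟨y, hy, hmax⟩ := Finset.exists_max_image _ id h2
    simp only [mem_filter, Finset.mem_range, id] at hy hmax
    have h3 : ∀ z, y < z → z < x → a z = .s := by
      intro z hz hz'
      by_contra h4
      have := hmax z ⟨hz', h4⟩
      omega
    refine ⟨⟨y, by omega⟩, Fin.lt_def.2 hy.1, ?_, fun z hz hz' => h3 z (Fin.lt_def.1 hz)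
      (Fin.lt_def.1 hz')⟩
    show a y = .c
    cases ha : a y
    · exact absurd ha hy.2
    · exfalso
      apply h1
      have h4 := h y (by omega)
      rw [ha] at h4
      rw [stay h0 h (y + 1) x (by omega) (by omega) (fun z hz hz' => h3 z (by omega) hz')]
      exact (tr_e (st_le h0 h y (by omega)) h4).1
    · rfl

theorem pure_of_path (h0 : st 0 = 0) (h : ∀ i < n, (a i, st (i + 1)) ∈ tr (st i) (τ i))
    (x y : Fin n) (hxy : PW (fun i : Fin n => a i) x y) : τ x = τ y := by
  have key : ∀ x y : Fin n, PW (fun i : Fin n => a i) x y → x < y → τ x = τ y := by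
    intro x y hxy hlt
    rw [PW_iff] at hxy
    rcases hxy with rfl | ⟨h1, h2, h3⟩
    · rfl
    · have hlt' := Fin.lt_def.1 hlt
      have hyn := y.2
      have hne : ∀ z, (x : ℕ) ≤ z → z < (y : ℕ) → a z ≠ .e := by
        intro z hz hz' hze
        have h4 := (h3 ⟨z, by omega⟩ hze).2 (Fin.lt_def.2 hz')
        rw [Fin.lt_def] at h4
        simp only at h4
        omega
      have hxc : a x = .c := by
        cases ha : a x
        · exact absurd ha h1
        · exact absurd ha (hne x le_rfl hlt')
        · rfl
      have h5 := stay_c h0 h x hxc y (by omega) (by omega) hne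
      have h6 := h y hyn
      have h7 := st_le h0 h y (by omega)
      cases ha : a y
      · exact absurd ha h2
      · rw [ha] at h6
        rcases (tr_e h7 h6).2 with ⟨h8, h9⟩ | ⟨h8, h9⟩
        · rw [h8] at h5
          cases hx : τ x
          · rw [hx] at h5
            simp at h5
          · rw [h9]
        · rw [h8] at h5
          cases hx : τ x
          · rw [h9]
          · rw [hx] at h5
            simp at h5
      · rw [ha] at h6
        rcases tr_c h7 h6 with ⟨h8, h9, h10⟩ | ⟨h8, h9, h10⟩
        · rw [h8]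
          cases hx : τ x
          · rw [hx] at h5
            simp at h5
            omega
          · rfl
        · rw [h8]
          cases hx : τ x
          · rfl
          · rw [hx] at h5
            simp at h5
            omega
  rcases lt_trichotomy x y with h1 | h1 | h1
  · exact key x y hxy h1
  · rw [h1]
  · exact (key y x ((PW _).symm' hxy) h1).symm

end path

theorem conv_of_pure {P : Setoid (Fin n)} {τ : ℕ → Bool} {σ : Equiv.Perm (Fin n)}
    (hP : Conv 1 P) (hpure : ∀ x y, P x y → τ x = τ y)
    (h1 : ∀ i j : Fin n, τ i = τ j → i < j → σ i < σ j)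
    (h2 : ∀ i j : Fin n, τ i = true → τ j = false → σ i < σ j) : Conv σ P := by
  intro i j l hil hlj hij
  by_cases hl : l ∈ sing P
  · exact Or.inr (mem_sing.1 hl)
  · left
    have ht := hpure i j hij
    have htl : τ i = τ l := by
      cases hi : τ i <;> cases hl : τ l
      · rfl
      · exact absurd (h2 l i hl hi) (not_lt.2 hil.le)
      · exact absurd (h2 j l (by rw [← ht, hi]) hl) (not_lt.2 hlj.le)
      · rfl
    have h3 : i < l := by
      by_contra hcon
      rcases (not_lt.1 hcon).lt_or_eq with h | h
      · exact absurd (h1 l i htl.symm h) (not_lt.2 hil.le)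
      · subst h
        exact lt_irrefl _ hil
    have h4 : l < j := by
      by_contra hcon
      rcases (not_lt.1 hcon).lt_or_eq with h | h
      · exact absurd (h1 j l (ht.symm.trans htl) h) (not_lt.2 hlj.le)
      · subst h
        exact lt_irrefl _ hlj
    exact conv_one hP h3 h4.le hij hl

/-- the word with the prefix `c e`. -/
def wd (as : List L) (i : ℕ) : L := (L.c :: L.e :: as).getD i .s

/-- the common partitions with `k` classes, in terms of convexity. -/
def CS (σ : Equiv.Perm (Fin n)) (k : ℕ) : Set (Setoid (Fin n)) :=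
  {P | Conv 1 P ∧ Conv σ P ∧ Nat.card (Quotient P) = k ∧ NonTrivial P}

theorem getD_map_range (m : ℕ) (f : ℕ → Bool) (i : ℕ) (hi : i < m) :
    ((List.range m).map f).getD i false = f i := by
  rw [List.getD_eq_getElem _ _ (by simpa using hi)]
  simp

theorem lower_pure {m : ℕ} {τ : ℕ → Bool} {σ : Equiv.Perm (Fin (m + 2))} (ht0 : τ 0 = true)
    (ht1 : τ 1 = true)
    (h1 : ∀ i j : Fin (m + 2), τ i = τ j → i < j → σ i < σ j)
    (h2 : ∀ i j : Fin (m + 2), τ i = true → τ j = false → σ i < σ j)
    (k : ℕ) (hk : k < m) :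
    cnt ((List.range m).map fun i => τ (i + 2)) 0 k ≤ (CS σ (k + 1)).ncard := by
  classical
  rw [← length_words, ← List.toFinset_card_of_nodup (nodup_words _ 0 k (by omega)),
    ← Set.ncard_coe_finset]
  have hmain : ∀ as ∈ words ((List.range m).map fun i => τ (i + 2)) 0 k, as.length = m ∧
      ∃ st : ℕ → ℕ, st 0 = 0 ∧ (∀ i < m + 2, (wd as i, st (i + 1)) ∈ tr (st i) (τ i)) ∧
        fin (st (m + 2)) = true ∧ ∑ i ∈ range (m + 2), wt (wd as i) = k + 1 ∧
        ∑ i ∈ range m, wt (as.getD i .s) = k := by
    intro as has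
    obtain ⟨h3, st, h4, h5, h6, h7⟩ := path_of_mem _ _ _ _ has
    rw [List.length_map, List.length_range] at h3 h5 h6 h7
    refine ⟨h3, fun i => Nat.casesOn i 0 (fun i => Nat.casesOn i 1 st), rfl, ?_, h6, ?_, h7.symm⟩
    · intro i hi
      rcases i with _ | _ | i
      · show (L.c, 1) ∈ tr 0 (τ 0)
        rw [ht0]
        simp [tr]
      · show (L.e, st 0) ∈ tr 1 (τ 1)
        rw [ht1, h4]
        simp [tr]
      · have := h5 i (by omega)
        rw [getD_map_range m _ i (by omega)] at this
        exact this
    · rw [Finset.sum_range_succ', Finset.sum_range_succ', h7]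
      rfl
  apply Set.ncard_le_ncard_of_injOn (fun as => PW (fun i : Fin (m + 2) => wd as i))
    (ht := finite_setoid' _ _)
  · intro as has
    rw [mem_coe, List.mem_toFinset] at has
    obtain ⟨h3, st, h4, h5, h6, h7, h8⟩ := hmain as has
    have hgood := good_of_path h4 h5 h6
    have hpure := pure_of_path h4 h5
    refine ⟨conv_PW _, conv_of_pure (conv_PW _) hpure h1 h2, ?_, ?_⟩
    · rw [← sum_wt, ← h7]
      apply Finset.sum_congr rfl
      intro i hi
      have := lwn_val (PW fun i : Fin (m + 2) => wd as i) ⟨i, Finset.mem_range.1 hi⟩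
      rw [lw_PW hgood] at this
      rw [this]
    · -- another class
      have h9 : ∃ i < m, as.getD i .s = .c := by
        by_contra hcon
        push Not at hcon
        have : ∑ i ∈ range m, wt (as.getD i .s) = ∑ i ∈ range m, 1 := by
          apply Finset.sum_congr rfl
          intro i hi
          have := hcon i (Finset.mem_range.1 hi)
          cases ha : as.getD i .s
          · rfl
          · rfl
          · exact absurd ha this
        rw [this, Finset.sum_const, card_range, smul_eq_mul, mul_one] at h8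
        omega
      obtain ⟨i, hi, hic⟩ := h9
      obtain ⟨y, h10, h11, h12⟩ := hgood.next ⟨i + 2, by omega⟩ hic
      obtain ⟨z, h13, h14, h15⟩ := hgood.prev ⟨1, by omega⟩ rfl
      have hrel1 : PW (fun i : Fin (m + 2) => wd as i) z ⟨1, by omega⟩ := by
        rw [PW_iff]
        refine Or.inr ⟨by rw [h14]; simp, by show L.e ≠ L.s; simp, ?_⟩
        intro e he
        refine ⟨fun h => h.trans h13, fun h16 => ?_⟩
        by_contra h17
        rcases (not_lt.1 h17).lt_or_eq with h18 | h18
        · have := h15 e h18 h16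
          rw [this] at he
          exact absurd he (by simp)
        · subst h18
          rw [h14] at he
          exact absurd he (by simp)
      have hrel2 : PW (fun i : Fin (m + 2) => wd as i) ⟨i + 2, by omega⟩ y := by
        rw [PW_iff]
        refine Or.inr ⟨?_, h11, ?_⟩
        · show as.getD i .s ≠ .s
          rw [hic]
          simp
        intro e he
        refine ⟨fun h => h.trans h10, fun h16 => ?_⟩
        by_contra h17
        rcases (not_lt.1 h17).lt_or_eq with h18 | h18
        · have := h12 e h18 h16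
          rw [this] at he
          exact absurd he (by simp)
        · subst h18
          have he' : as.getD i .s = .e := he
          rw [hic] at he'
          exact absurd he' (by simp)
      refine ⟨z, ⟨1, by omega⟩, ⟨i + 2, by omega⟩, y, hrel1, h13.ne, hrel2, h10.ne, ?_⟩
      intro hcon
      have h16 := (PW _).trans' ((PW _).symm' hrel1) hcon
      rw [PW_iff] at h16
      rcases h16 with h16 | ⟨-, -, h16⟩
      · have := Fin.ext_iff.1 h16
        simp only at this
        omega
      · have := (h16 ⟨1, by omega⟩ rfl).2 (Fin.lt_def.2 (by simp only; omega))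
        exact lt_irrefl _ this
  · intro as has bs hbs hab
    rw [mem_coe, List.mem_toFinset] at has hbs
    obtain ⟨h3, st, h4, h5, h6, h7, h8⟩ := hmain as has
    obtain ⟨h3', st', h4', h5', h6', h7', h8'⟩ := hmain bs hbs
    have hgood := good_of_path h4 h5 h6
    have hgood' := good_of_path h4' h5' h6'
    have hab' : (PW fun i : Fin (m + 2) => wd as i) = PW fun i : Fin (m + 2) => wd bs i := hab
    have key : ∀ x : Fin (m + 2), wd as x = wd bs x := by
      intro x
      have e1 := lw_PW hgood x
      have e2 := lw_PW hgood' x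
      rw [← hab'] at e2
      exact e1.symm.trans e2
    apply List.ext_getElem (by rw [h3, h3'])
    intro i hi hi'
    have := key ⟨i + 2, by omega⟩
    have h9 : as.getD i .s = bs.getD i .s := this
    rwa [List.getD_eq_getElem _ _ hi, List.getD_eq_getElem _ _ hi'] at h9

theorem exists_ne_not_mem' {n : ℕ} (S : Finset (Fin n)) (h : #S + 2 ≤ n) (x : Fin n) :
    ∃ y, y ≠ x ∧ y ∉ S := by
  have h1 : #(insert x S) < #(univ : Finset (Fin n)) := by
    rw [card_univ, Fintype.card_fin]
    have := card_insert_le x S
    omega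
  obtain ⟨y, _, hy⟩ := exists_mem_notMem_of_card_lt_card h1
  rw [mem_insert, not_or] at hy
  exact ⟨y, hy.1, hy.2⟩

theorem good_one {m : ℕ} {S : Finset (Fin (m + 2))} (hS1 : S ⊆ univ \ {0, 1})
    (hS2 : #S + 4 ≤ m + 2) : Good S {1} := by
  have hw1 : ((1 : Fin (m + 2)) : ℕ) = 1 := by simp
  have h0 : (0 : Fin (m + 2)) ∉ S := by
    intro h
    have := hS1 h
    simp at this
  have h1 : (1 : Fin (m + 2)) ∉ S := by
    intro h
    have := hS1 h
    simp at this
  have hcard : #(insert 0 (insert 1 S)) ≤ #S + 2 := by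
    have h3 := card_insert_le 0 (insert 1 S)
    have h4 := card_insert_le 1 S
    omega
  refine ⟨?_, ?_⟩
  · intro x hx
    by_cases hx1 : (x : ℕ) < 2
    · by_cases hx0 : (x : ℕ) = 0
      · refine ⟨1, ?_, h1, ?_⟩
        · intro h
          have := Fin.ext_iff.1 h
          omega
        · intro e he
          rw [mem_singleton] at he
          subst he
          rw [Fin.lt_def, Fin.lt_def]
          omega
      · refine ⟨0, ?_, h0, ?_⟩
        · intro h
          have := Fin.ext_iff.1 h
          simp at this
          omega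
        · intro e he
          rw [mem_singleton] at he
          subst he
          rw [Fin.lt_def, Fin.lt_def]
          simp only [Fin.val_zero]
          omega
    · obtain ⟨y, hy1, hy2⟩ := exists_ne_not_mem' (insert 0 (insert 1 S)) (by omega) x
      rw [mem_insert, mem_insert, not_or, not_or] at hy2
      obtain ⟨hy3, hy4, hy5⟩ := hy2
      refine ⟨y, hy1, hy5, ?_⟩
      intro e he
      rw [mem_singleton] at he
      subst he
      rw [Fin.lt_def, Fin.lt_def, hw1]
      have h5 : (y : ℕ) ≠ 0 := fun h => hy3 (Fin.ext h)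
      have h6 : (y : ℕ) ≠ 1 := fun h => hy4 (Fin.ext (by rw [hw1]; exact h))
      omega
  · intro e he
    simp only [mem_singleton] at he
    subst he
    refine ⟨h1, ?_⟩
    obtain ⟨y, hy1, hy2⟩ := exists_ne_not_mem' (insert 0 (insert 1 S)) (by omega) 1
    rw [mem_insert, mem_insert, not_or, not_or] at hy2
    obtain ⟨hy3, hy4, hy5⟩ := hy2
    refine ⟨y, ?_, hy5⟩
    rw [Fin.lt_def, hw1]
    have h5 : (y : ℕ) ≠ 0 := fun h => hy3 (Fin.ext h)
    have h6 : (y : ℕ) ≠ 1 := fun h => hy4 (Fin.ext (by rw [hw1]; exact h))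
    omega

theorem conv_one_class {m : ℕ} {τ : ℕ → Bool} {σ : Equiv.Perm (Fin (m + 2))}
    (ht0 : τ 0 = true) (ht1 : τ 1 = true)
    (h1 : ∀ i j : Fin (m + 2), τ i = τ j → i < j → σ i < σ j)
    (h2 : ∀ i j : Fin (m + 2), τ i = true → τ j = false → σ i < σ j)
    (S : Finset (Fin (m + 2))) : Conv σ (R S {1}) := by
  have hw1 : ((1 : Fin (m + 2)) : ℕ) = 1 := by simp
  have hsmall : ∀ x : Fin (m + 2), ¬ (1 : Fin (m + 2)) < x → τ x = true := by
    intro x hx
    rw [Fin.lt_def, hw1] at hx
    have : (x : ℕ) = 0 ∨ (x : ℕ) = 1 := by omega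
    rcases this with h | h
    · rw [h, ht0]
    · rw [h, ht1]
  intro i j l hil hlj hij
  by_cases hl : l ∈ S
  · right
    rintro x (rfl | ⟨h1, -, -⟩)
    · rfl
    · exact absurd hl h1
  · left
    rcases hij with rfl | ⟨h3, h4, h5⟩
    · exact absurd (hil.trans hlj) (lt_irrefl _)
    · refine Or.inr ⟨h3, hl, ?_⟩
      intro e he
      rw [mem_singleton] at he
      subst he
      have h6 := h5 1 (mem_singleton_self _)
      constructor
      · intro h7
        by_contra h8
        have h9 := hsmall l h8
        cases hi : τ i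
        · exact absurd (h2 l i h9 hi) (not_lt.2 hil.le)
        · have h10 : l < i := lt_of_le_of_lt (not_lt.1 h8) h7
          exact absurd (h1 l i (by rw [h9, hi]) h10) (not_lt.2 hil.le)
      · intro h7
        by_contra h8
        have h9 : ¬ (1 : Fin (m + 2)) < j := fun h => h8 (h6.2 h)
        have h10 := hsmall j h9
        cases hl' : τ l
        · exact absurd (h2 j l h10 hl') (not_lt.2 hlj.le)
        · have h11 : j < l := lt_of_le_of_lt (not_lt.1 h9) h7
          exact absurd (h1 j l (by rw [h10, hl']) h11) (not_lt.2 hlj.le)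

theorem lower_coarse {m : ℕ} {τ : ℕ → Bool} {σ : Equiv.Perm (Fin (m + 2))}
    (ht0 : τ 0 = true) (ht1 : τ 1 = true)
    (h1 : ∀ i j : Fin (m + 2), τ i = τ j → i < j → σ i < σ j)
    (h2 : ∀ i j : Fin (m + 2), τ i = true → τ j = false → σ i < σ j)
    (k : ℕ) (hk : k + 2 ≤ m) :
    m.choose k ≤ (CS σ (k + 2)).ncard := by
  classical
  have hne01 : (0 : Fin (m + 2)) ≠ 1 := by
    intro h
    have := Fin.ext_iff.1 h
    simp at this
  have hcard : m.choose k = #(powersetCard k (univ \ {0, 1} : Finset (Fin (m + 2)))) := by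
    rw [card_powersetCard, card_sdiff_of_subset (subset_univ _), card_univ, Fintype.card_fin,
      card_pair hne01]
    rfl
  rw [hcard, ← Set.ncard_coe_finset]
  have hgood : ∀ S ∈ powersetCard k (univ \ {0, 1} : Finset (Fin (m + 2))), Good S {1} := by
    intro S hS
    rw [mem_powersetCard] at hS
    exact good_one hS.1 (by omega)
  apply Set.ncard_le_ncard_of_injOn (fun S => R S {1}) (ht := finite_setoid' _ _)
  · intro S hS
    rw [mem_coe] at hS
    have hg := hgood S hS
    rw [mem_powersetCard] at hS
    refine ⟨conv_R_of_fixed 1 (fun _ _ => rfl), conv_one_class ht0 ht1 h1 h2 S, ?_,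
      nonTrivial_R hg (by simp)⟩
    have h3 := card_quot' (R S {1}) (by
      rw [sing_R hg]
      exact ⟨1, (hg.2 1 (mem_singleton_self _)).1⟩)
    rw [sing_R hg, ends_R hg, card_singleton, hS.2] at h3
    exact h3
  · intro S hS S' hS' hSS
    have hg := hgood S hS
    have hg' := hgood S' hS'
    have e1 := sing_R hg
    have e2 := sing_R hg'
    have hSS' : R S {1} = R S' {1} := hSS
    rw [hSS'] at e1
    exact e1.symm.trans e2

end Pool.Agent.K4H74.Phylo
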