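import Pool.Agent.K4H74.Phylo.Lower

set_option autoImplicit false
set_option maxRecDepth 100000

namespace Pool.Agent.K4H74.Phylo
open Finset Pool.Agent.R935.Phylo

/-- the second leaf order: first the `U`-leaves, then the `V`-leaves. -/
def sg : Equiv.Perm (Fin (318 + 2)) where
  toFun i := ⟨if (i : ℕ) % 8 < 5 then 5 * ((i : ℕ) / 8) + (i : ℕ) % 8
    else 200 + 3 * ((i : ℕ) / 8) + ((i : ℕ) % 8 - 5), by have := i.2; split_ifs <;> omega⟩
  invFun j := ⟨if (j : ℕ) < 200 then 8 * ((j : ℕ) / 5) + (j : ℕ) % 5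
    else 8 * (((j : ℕ) - 200) / 3) + (((j : ℕ) - 200) % 3 + 5), by
      have := j.2; split_ifs <;> omega⟩
  left_inv i := by
    have := i.2
    apply Fin.ext
    simp only
    split_ifs <;> omega
  right_inv j := by
    have := j.2
    apply Fin.ext
    simp only
    split_ifs <;> omega

theorem sg_val (i : Fin (318 + 2)) : (sg i : ℕ) = if (i : ℕ) % 8 < 5 then
    5 * ((i : ℕ) / 8) + (i : ℕ) % 8 else 200 + 3 * ((i : ℕ) / 8) + ((i : ℕ) % 8 - 5) := rfl

theorem sg_mono : ∀ i j : Fin (318 + 2), ty i = ty j → i < j → sg i < sg j := by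
  intro i j h hij
  rw [Fin.lt_def] at hij ⊢
  rw [sg_val, sg_val]
  unfold ty at h
  have h1 := i.2
  have h2 := j.2
  rw [decide_eq_decide] at h
  split_ifs <;> omega

theorem sg_type : ∀ i j : Fin (318 + 2), ty i = true → ty j = false → sg i < sg j := by
  intro i j hi hj
  rw [Fin.lt_def, sg_val, sg_val]
  unfold ty at hi hj
  rw [decide_eq_true_eq] at hi
  rw [decide_eq_false_iff_not] at hj
  have h1 := i.2
  have h2 := j.2
  rw [if_pos hi, if_neg hj]
  omega

def tA : List Bool := (List.range (318 + 2)).map ty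
def tB : List Bool := (List.range 318).map fun i => ty (i + 2)

theorem len_tA : tA.length = 320 := by simp [tA]
theorem len_tB : tB.length = 318 := by simp [tB]

theorem B_big : 3 ^ 320 < 2 ^ 512 := by decide +kernel

theorem B_big' : 3 ^ 318 < 2 ^ 512 := by decide +kernel

theorem num1 : (run (2 ^ 512) tA).get 0 / (2 ^ 512) ^ 191 % 2 ^ 512 +
    (run (2 ^ 512) tA).get 3 / (2 ^ 512) ^ 191 % 2 ^ 512 <
      Nat.factorial 318 / (Nat.factorial 159 * Nat.factorial 159) := by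
  decide +kernel

theorem num2 : (run (2 ^ 512) tA).get 0 / (2 ^ 512) ^ 191 % 2 ^ 512 +
    (run (2 ^ 512) tA).get 3 / (2 ^ 512) ^ 191 % 2 ^ 512 <
      (run (2 ^ 512) tB).get 0 / (2 ^ 512) ^ 211 % 2 ^ 512 := by
  decide +kernel

theorem cmp1 : cnt tA 0 191 + cnt tA 3 191 < Nat.choose 318 159 := by
  rw [cnt_eq (2 ^ 512) tA (by rw [len_tA]; exact B_big) 0 191 (by rw [len_tA]; norm_num),
    cnt_eq (2 ^ 512) tA (by rw [len_tA]; exact B_big) 3 191 (by rw [len_tA]; norm_num),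
    Nat.choose_eq_factorial_div_factorial (by norm_num)]
  exact num1

theorem cmp2 : cnt tA 0 191 + cnt tA 3 191 < cnt tB 0 211 := by
  rw [cnt_eq (2 ^ 512) tA (by rw [len_tA]; exact B_big) 0 191 (by rw [len_tA]; norm_num),
    cnt_eq (2 ^ 512) tA (by rw [len_tA]; exact B_big) 3 191 (by rw [len_tA]; norm_num),
    cnt_eq (2 ^ 512) tB (by rw [len_tB]; exact B_big') 0 211
      (by rw [len_tB]; norm_num)]
  exact num2

theorem bound_gen {m : ℕ} {τ : ℕ → Bool} {σ : Equiv.Perm (Fin (m + 2))}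
    (ht0 : τ 0 = true) (ht1 : τ 1 = true)
    (h1 : ∀ i j : Fin (m + 2), τ i = τ j → i < j → σ i < σ j)
    (h2 : ∀ i j : Fin (m + 2), τ i = true → τ j = false → σ i < σ j)
    (A B : List Bool) (hA : (List.range (m + 2)).map τ = A)
    (hB : ((List.range m).map fun i => τ (i + 2)) = B) (k0 k1 k2 c k1' k2' : ℕ)
    (hc : m.choose k1 = c) (hk1 : k1 + 2 ≤ m) (hk2 : k2 < m)
    (hcmp1 : cnt A 0 k0 + cnt A 3 k0 < c) (hcmp2 : cnt A 0 k0 + cnt A 3 k0 < cnt B 0 k2)
    (hk1' : k1 + 2 = k1') (hk2' : k2 + 1 = k2') :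
    (CS σ k0).ncard < (CS σ k1').ncard ∧ (CS σ k0).ncard < (CS σ k2').ncard := by
  subst hA hB hc hk1' hk2'
  have h3 := upper_bound (τ := τ) (σ := σ) h1 h2 k0 (CS σ k0)
    (fun P hP => ⟨hP.1, hP.2.1, hP.2.2.1⟩)
  exact ⟨(h3.trans_lt hcmp1).trans_le (lower_coarse ht0 ht1 h1 h2 k1 hk1),
    (h3.trans_lt hcmp2).trans_le (lower_pure ht0 ht1 h1 h2 k2 hk2)⟩

theorem bounds : (CS sg 191).ncard < (CS sg 161).ncard ∧ (CS sg 191).ncard < (CS sg 212).ncard :=
  bound_gen (τ := ty) (σ := sg) rfl rfl sg_mono sg_type tA tB rfl rfl 191 159 211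
    (Nat.choose 318 159) 161 212 rfl (by norm_num) (by norm_num) cmp1 cmp2 rfl rfl

theorem commonNT_eq (k : ℕ) : commonNT (cat 318 (by norm_num) 1) (cat 318 (by norm_num) sg) k =
    (CS sg k).ncard := by
  unfold commonNT CS
  simp only [induces_iff]

end Pool.Agent.K4H74.Phylo
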