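import Pool.Agent.K4H74.Phylo.Auto2
import Pool.Agent.R935.Phylo.Code

set_option autoImplicit false

namespace Pool.Agent.K4H74.Phylo
open Finset Pool.Agent.R935.Phylo

variable {n : ℕ}

open Classical in
/-- the letter of an element. -/
noncomputable def lw (P : Setoid (Fin n)) (x : Fin n) : L :=
  if x ∈ sing P then .s else if (∀ y, P x y → y ≤ x) then .e else .c

open Classical in
noncomputable def lwn (P : Setoid (Fin n)) (i : ℕ) : L :=
  if h : i < n then lw P ⟨i, h⟩ else .s

theorem lwn_val (P : Setoid (Fin n)) (x : Fin n) : lwn P x = lw P x := by simp [lwn]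

theorem lw_eq_s {P : Setoid (Fin n)} {x : Fin n} : lw P x = .s ↔ x ∈ sing P := by
  unfold lw
  split_ifs <;> simp_all

theorem lw_sing {P : Setoid (Fin n)} {x : Fin n} (h : x ∈ sing P) : lw P x = .s := lw_eq_s.2 h

theorem lw_max {P : Setoid (Fin n)} {x : Fin n} (h : x ∉ sing P) (h' : ∀ y, P x y → y ≤ x) :
    lw P x = .e := by
  unfold lw
  rw [if_neg h, if_pos h']

theorem lw_notmax {P : Setoid (Fin n)} {x : Fin n} (h : x ∉ sing P)
    (h' : ¬ ∀ y, P x y → y ≤ x) : lw P x = .c := by
  unfold lw
  rw [if_neg h, if_neg h']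

theorem sum_wt (P : Setoid (Fin n)) : ∑ i ∈ range n, wt (lwn P i) = Nat.card (Quotient P) := by
  classical
  rw [← Fin.sum_univ_eq_sum_range (fun i => wt (lwn P i)) n, card_quot, Finset.card_filter]
  apply Finset.sum_congr rfl
  intro x _
  rw [lwn_val]
  unfold lw
  by_cases h1 : x ∈ sing P
  · have : ∀ y, P x y → y ≤ x := fun y hy => (mem_sing.1 h1 y hy).le
    rw [if_pos h1, if_pos this]
    rfl
  · rw [if_neg h1]
    split_ifs <;> rfl

/-- the letters determine the partition. -/
theorem lw_injective {P Q : Setoid (Fin n)} (hP : Conv 1 P) (hQ : Conv 1 Q)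
    (h : ∀ x, lw P x = lw Q x) : P = Q := by
  have h1 : sing P = sing Q := by
    ext x
    rw [← lw_eq_s, ← lw_eq_s, h]
  have hmax : ∀ x, x ∉ sing P → ((∀ y, P x y → y ≤ x) ↔ (∀ y, Q x y → y ≤ x)) := by
    intro x hx
    have hx' : x ∉ sing Q := h1 ▸ hx
    have := h x
    by_cases h2 : ∀ y, P x y → y ≤ x
    · by_cases h3 : ∀ y, Q x y → y ≤ x
      · exact iff_of_true h2 h3
      · rw [lw_max hx h2, lw_notmax hx' h3] at this
        exact absurd this (by simp)
    · by_cases h3 : ∀ y, Q x y → y ≤ x
      · rw [lw_notmax hx h2, lw_max hx' h3] at this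
        exact absurd this (by simp)
      · exact iff_of_false h2 h3
  have h2 : ends P = ends Q := by
    ext x
    rw [mem_ends, mem_ends, ← h1]
    constructor
    · rintro ⟨a, b, c⟩
      exact ⟨a, (hmax x a).1 b, c⟩
    · rintro ⟨a, b, c⟩
      exact ⟨a, (hmax x a).2 b, c⟩
  rw [recover P hP, recover Q hQ, h1, h2]

/-- a class which satisfies `A` crosses the position `i`. -/
def crQ (P : Setoid (Fin n)) (A : Fin n → Prop) (i : ℕ) : Prop :=
  ∃ x y : Fin n, (x : ℕ) < i ∧ i ≤ (y : ℕ) ∧ P x y ∧ A x

theorem cr_sing {P : Setoid (Fin n)} {A : Fin n → Prop} {i : Fin n} (h : i ∈ sing P) :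
    crQ P A (i + 1) ↔ crQ P A i := by
  rw [mem_sing] at h
  constructor
  · rintro ⟨x, y, h1, h2, h3, h4⟩
    have hx : x ≠ i := by
      rintro rfl
      have := h y h3
      subst this
      omega
    have hx' : (x : ℕ) ≠ i := fun h => hx (Fin.ext h)
    exact ⟨x, y, by omega, by omega, h3, h4⟩
  · rintro ⟨x, y, h1, h2, h3, h4⟩
    have hy : y ≠ i := by
      rintro rfl
      have := h x (P.symm' h3)
      subst this
      omega
    have hy' : (y : ℕ) ≠ i := fun h => hy (Fin.ext h)
    exact ⟨x, y, by omega, by omega, h3, h4⟩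

theorem conv_one {P : Setoid (Fin n)} (hP : Conv 1 P) {i j l : Fin n} (h1 : i < l) (h2 : l ≤ j)
    (h3 : P i j) (h4 : l ∉ sing P) : P i l := by
  rcases h2.lt_or_eq with h2 | h2
  · rcases hP i j l h1 h2 h3 with h | h
    · exact h
    · exact absurd (mem_sing.2 h) h4
  · subst h2
    exact h3

theorem cr_rel {P : Setoid (Fin n)} (hP : Conv 1 P) {i x y : Fin n} (h : i ∉ sing P)
    (h1 : (x : ℕ) < i) (h2 : (i : ℕ) ≤ y) (h3 : P x y) : P x i :=
  conv_one hP (Fin.lt_def.2 h1) (Fin.le_def.2 h2) h3 h

theorem cr_max {P : Setoid (Fin n)} (hP : Conv 1 P) {A : Fin n → Prop} {i : Fin n}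
    (h : i ∉ sing P) (h' : ∀ y, P i y → y ≤ i) : ¬ crQ P A (i + 1) := by
  rintro ⟨x, y, h1, h2, h3, -⟩
  have h4 : P x i := by
    by_cases hx : x = i
    · subst hx
      exact P.refl' _
    · have hx' : (x : ℕ) ≠ i := fun h => hx (Fin.ext h)
      exact cr_rel hP h (by omega) (by omega) h3
  have := Fin.le_def.1 (h' y (P.trans' (P.symm' h4) h3))
  omega

theorem cr_notmax {P : Setoid (Fin n)} {A : Fin n → Prop} {i : Fin n}
    (h' : ¬ ∀ y, P i y → y ≤ i) (hA : A i) : crQ P A (i + 1) := by
  push Not at h'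
  obtain ⟨y, h1, h2⟩ := h'
  have := Fin.lt_def.1 h2
  exact ⟨i, y, by omega, by omega, h1, hA⟩

theorem notmax_of_not_cr {P : Setoid (Fin n)} {A : Fin n → Prop} {i : Fin n} (h : i ∉ sing P)
    (h' : ¬ crQ P A i) (hA : ∀ y, P i y → A y) : ¬ ∀ y, P i y → y ≤ i := by
  intro h1
  obtain ⟨y, h2, h3⟩ := not_mem_sing.1 h
  have h4 := Fin.le_def.1 (h1 y h2)
  have h5 : (y : ℕ) ≠ i := fun h => h3 (Fin.ext h)
  exact h' ⟨y, i, by omega, by omega, P.symm' h2, hA y h2⟩

section pure

variable (P : Setoid (Fin n)) (τ : ℕ → Bool)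

open Classical in
/-- the state before the position `i`, in the absence of a mixed class. -/
noncomputable def stP (i : ℕ) : ℕ :=
  if crQ P (fun x => τ x = true) i then 1 else if crQ P (fun x => τ x = false) i then 2 else 0

variable {P τ}

theorem pure_excl (hP : Conv 1 P) (hpure : ∀ x y, P x y → τ x = τ y) {i : ℕ}
    (h1 : crQ P (fun x => τ x = true) i) (h2 : crQ P (fun x => τ x = false) i) : False := by
  obtain ⟨x, y, a1, a2, a3, a4⟩ := h1
  obtain ⟨x', y', b1, b2, b3, b4⟩ := h2
  have hx : x ∉ sing P := not_sing_of_rel a3 (by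
    rintro rfl
    omega)
  have hx' : x' ∉ sing P := not_sing_of_rel b3 (by
    rintro rfl
    omega)
  have : P x x' := by
    rcases lt_trichotomy x x' with h | h | h
    · exact conv_one hP h (Fin.le_def.2 (by omega)) a3 hx'
    · subst h
      exact P.refl' _
    · exact P.symm' (conv_one hP h (Fin.le_def.2 (by omega)) b3 hx)
  have := hpure x x' this
  rw [a4, b4] at this
  exact absurd this (by simp)

theorem pure_step (hP : Conv 1 P) (hpure : ∀ x y, P x y → τ x = τ y) (i : Fin n) :
    (lw P i, stP P τ (i + 1)) ∈ tr (stP P τ i) (τ i) := by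
  by_cases hs : i ∈ sing P
  · rw [lw_sing hs]
    have : stP P τ (i + 1) = stP P τ i := by
      unfold stP
      rw [cr_sing hs, cr_sing hs]
    rw [this]
    unfold stP
    split_ifs <;> cases τ i <;> simp [tr]
  · by_cases h1 : crQ P (fun x => τ x = true) i
    · have hst : stP P τ i = 1 := by
        unfold stP
        rw [if_pos h1]
      have hti : τ i = true := by
        obtain ⟨x, y, a1, a2, a3, a4⟩ := h1
        have := hpure x i (cr_rel hP hs a1 a2 a3)
        rw [← this, a4]
      rw [hst, hti]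
      by_cases hm : ∀ y, P i y → y ≤ i
      · have : stP P τ (i + 1) = 0 := by
          unfold stP
          rw [if_neg (cr_max hP hs hm), if_neg (cr_max hP hs hm)]
        rw [this, lw_max hs hm]
        simp [tr]
      · have : stP P τ (i + 1) = 1 := by
          unfold stP
          rw [if_pos (cr_notmax hm hti)]
        rw [this, lw_notmax hs hm]
        simp [tr]
    · by_cases h2 : crQ P (fun x => τ x = false) i
      · have hst : stP P τ i = 2 := by
          unfold stP
          rw [if_neg h1, if_pos h2]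
        have hti : τ i = false := by
          obtain ⟨x, y, a1, a2, a3, a4⟩ := h2
          have := hpure x i (cr_rel hP hs a1 a2 a3)
          rw [← this, a4]
        rw [hst, hti]
        by_cases hm : ∀ y, P i y → y ≤ i
        · have : stP P τ (i + 1) = 0 := by
            unfold stP
            rw [if_neg (cr_max hP hs hm), if_neg (cr_max hP hs hm)]
          rw [this, lw_max hs hm]
          simp [tr]
        · have h3 : crQ P (fun x => τ x = false) (i + 1) := cr_notmax hm hti
          have : stP P τ (i + 1) = 2 := by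
            unfold stP
            rw [if_neg (fun h => pure_excl hP hpure h h3), if_pos h3]
          rw [this, lw_notmax hs hm]
          simp [tr]
      · have hst : stP P τ i = 0 := by
          unfold stP
          rw [if_neg h1, if_neg h2]
        rw [hst]
        cases hti : τ i
        · have hm : ¬ ∀ y, P i y → y ≤ i :=
            notmax_of_not_cr hs h2 (fun y hy => by rw [← hpure i y hy, hti])
          have h3 : crQ P (fun x => τ x = false) (i + 1) := cr_notmax hm hti
          have : stP P τ (i + 1) = 2 := by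
            unfold stP
            rw [if_neg (fun h => pure_excl hP hpure h h3), if_pos h3]
          rw [this, lw_notmax hs hm]
          simp [tr]
        · have hm : ¬ ∀ y, P i y → y ≤ i :=
            notmax_of_not_cr hs h1 (fun y hy => by rw [← hpure i y hy, hti])
          have : stP P τ (i + 1) = 1 := by
            unfold stP
            rw [if_pos (cr_notmax hm hti)]
          rw [this, lw_notmax hs hm]
          simp [tr]

theorem not_cr_zero (A : Fin n → Prop) : ¬ crQ P A 0 := by
  rintro ⟨x, y, h1, -⟩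
  omega

theorem not_cr_end (A : Fin n → Prop) : ¬ crQ P A n := by
  rintro ⟨x, y, -, h2, -⟩
  have := y.2
  omega

theorem pure_path (hP : Conv 1 P) (hpure : ∀ x y, P x y → τ x = τ y) :
    ∃ st : ℕ → ℕ, st 0 = 0 ∧ (∀ i < n, (lwn P i, st (i + 1)) ∈ tr (st i) (τ i)) ∧
      fin (st n) = true := by
  refine ⟨stP P τ, ?_, ?_, ?_⟩
  · unfold stP
    rw [if_neg (not_cr_zero _), if_neg (not_cr_zero _)]
  · intro i hi
    have := pure_step hP hpure ⟨i, hi⟩
    rw [← lwn_val] at this
    exact this
  · have : stP P τ n = 0 := by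
      unfold stP
      rw [if_neg (not_cr_end _), if_neg (not_cr_end _)]
    rw [this]
    rfl

end pure

section mixed

variable (P : Setoid (Fin n)) (t1 t2 : Fin n)

open Classical in
/-- the state before the position `i`, when the mixed class has the extreme elements `t1`,
`t2`. -/
noncomputable def stM (i : ℕ) : ℕ :=
  if i ≤ t1 then (if crQ P (fun _ => True) i then 4 else 3) else if i ≤ t2 then 5 else
    (if crQ P (fun _ => True) i then 7 else 6)

variable {P t1 t2} {τ : ℕ → Bool}

theorem mixed_step (hP : Conv 1 P) (h12 : P t1 t2) (hlt : t1 < t2)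
    (hmin : ∀ y, P t1 y → t1 ≤ y) (hmax : ∀ y, P t1 y → y ≤ t2)
    (hL : ∀ w, w ∉ sing P → w < t1 → τ w = true)
    (hR : ∀ w, w ∉ sing P → t2 < w → τ w = false) (i : Fin n) :
    (lw P i, stM P t1 t2 (i + 1)) ∈ tr (stM P t1 t2 i) (τ i) := by
  classical
  have hlt' := Fin.lt_def.1 hlt
  have ht1 : t1 ∉ sing P := not_sing_of_rel h12 hlt.ne
  have ht2 : t2 ∉ sing P := not_sing_of_rel (P.symm' h12) hlt.ne'
  rcases lt_trichotomy i t1 with h | h | h
  · -- left of the mixed class
    have h' := Fin.lt_def.1 h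
    have e1 : stM P t1 t2 i = if crQ P (fun _ => True) i then 4 else 3 := by
      unfold stM
      rw [if_pos (by omega)]
    have e2 : stM P t1 t2 (i + 1) = if crQ P (fun _ => True) (i + 1) then 4 else 3 := by
      unfold stM
      rw [if_pos (by omega)]
    rw [e1, e2]
    by_cases hs : i ∈ sing P
    · rw [lw_sing hs, cr_sing hs]
      split_ifs <;> cases τ i <;> simp [tr]
    · rw [hL i hs h]
      by_cases hm : ∀ y, P i y → y ≤ i
      · rw [if_neg (cr_max hP hs hm), lw_max hs hm]
        by_cases hc : crQ P (fun _ => True) i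
        · rw [if_pos hc]
          simp [tr]
        · exact absurd hm (notmax_of_not_cr hs hc (fun _ _ => trivial))
      · rw [if_pos (cr_notmax hm trivial), lw_notmax hs hm]
        split_ifs <;> simp [tr]
  · -- the minimum
    subst h
    have hc : ¬ crQ P (fun _ => True) i := by
      rintro ⟨x, y, h1, h2, h3, -⟩
      have := hmin x (P.symm' (cr_rel hP ht1 h1 h2 h3))
      rw [Fin.le_def] at this
      omega
    have e1 : stM P i t2 i = 3 := by
      unfold stM
      rw [if_pos le_rfl, if_neg hc]
    have e2 : stM P i t2 (i + 1) = 5 := by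
      unfold stM
      rw [if_neg (by omega), if_pos (by omega)]
    have hm : ¬ ∀ y, P i y → y ≤ i := by
      intro h
      exact absurd (h t2 h12) (not_le.2 hlt)
    rw [e1, e2, lw_notmax ht1 hm]
    cases τ i <;> simp [tr]
  · have h' := Fin.lt_def.1 h
    rcases lt_trichotomy i t2 with h2 | h2 | h2
    · have h2' := Fin.lt_def.1 h2
      have e1 : stM P t1 t2 i = 5 := by
        unfold stM
        rw [if_neg (by omega), if_pos (by omega)]
      have e2 : stM P t1 t2 (i + 1) = 5 := by
        unfold stM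
        rw [if_neg (by omega), if_pos (by omega)]
      rw [e1, e2]
      by_cases hs : i ∈ sing P
      · rw [lw_sing hs]
        simp [tr]
      · have h3 : P t1 i := conv_one hP h h2.le h12 hs
        have hm : ¬ ∀ y, P i y → y ≤ i := by
          intro h4
          exact absurd (h4 t2 (P.trans' (P.symm' h3) h12)) (not_le.2 h2)
        rw [lw_notmax hs hm]
        simp [tr]
    · subst h2
      have hm : ∀ y, P i y → y ≤ i := fun y hy => hmax y (P.trans' h12 hy)
      have e1 : stM P t1 i i = 5 := by
        unfold stM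
        rw [if_neg (by omega), if_pos (by omega)]
      have e2 : stM P t1 i (i + 1) = 6 := by
        unfold stM
        rw [if_neg (by omega), if_neg (by omega), if_neg (cr_max hP ht2 hm)]
      rw [e1, e2, lw_max ht2 hm]
      simp [tr]
    · have h2' := Fin.lt_def.1 h2
      have e1 : stM P t1 t2 i = if crQ P (fun _ => True) i then 7 else 6 := by
        unfold stM
        rw [if_neg (by omega), if_neg (by omega)]
      have e2 : stM P t1 t2 (i + 1) = if crQ P (fun _ => True) (i + 1) then 7 else 6 := by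
        unfold stM
        rw [if_neg (by omega), if_neg (by omega)]
      rw [e1, e2]
      by_cases hs : i ∈ sing P
      · rw [lw_sing hs, cr_sing hs]
        split_ifs <;> cases τ i <;> simp [tr]
      · rw [hR i hs h2]
        by_cases hm : ∀ y, P i y → y ≤ i
        · rw [if_neg (cr_max hP hs hm), lw_max hs hm]
          by_cases hc : crQ P (fun _ => True) i
          · rw [if_pos hc]
            simp [tr]
          · exact absurd hm (notmax_of_not_cr hs hc (fun _ _ => trivial))
        · rw [if_pos (cr_notmax hm trivial), lw_notmax hs hm]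
          split_ifs <;> simp [tr]

theorem exists_min (P : Setoid (Fin n)) (x : Fin n) : ∃ y, P x y ∧ ∀ z, P y z → y ≤ z := by
  classical
  obtain ⟨y, hy, hmax⟩ := Finset.exists_min_image (univ.filter fun y => P x y) id
    ⟨x, by simpa using P.refl' x⟩
  simp only [mem_filter, mem_univ, true_and, id] at hy hmax
  exact ⟨y, hy, fun z hz => hmax z (P.trans' hy hz)⟩

theorem mixed_path {σ : Equiv.Perm (Fin n)} (hP : Conv 1 P) (hσ : Conv σ P)
    (h1 : ∀ i j : Fin n, τ i = τ j → i < j → σ i < σ j)
    (h2 : ∀ i j : Fin n, τ i = true → τ j = false → σ i < σ j)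
    {u v : Fin n} (huv : P u v) (hu : τ u = true) (hv : τ v = false) :
    ∃ st : ℕ → ℕ, st 0 = 3 ∧ (∀ i < n, (lwn P i, st (i + 1)) ∈ tr (st i) (τ i)) ∧
      fin (st n) = true := by
  obtain ⟨t1, a1, a2⟩ := exists_min P u
  obtain ⟨t2, b1, b2⟩ := exists_max P u
  have h12 : P t1 t2 := P.trans' (P.symm' a1) b1
  have hune : u ≠ v := by
    rintro rfl
    rw [hu] at hv
    exact absurd hv (by simp)
  have hlt : t1 < t2 := by
    have c1 : t1 ≤ u := a2 u (P.symm' a1)
    have c2 : t1 ≤ v := a2 v (P.trans' (P.symm' a1) huv)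
    have c3 : u ≤ t2 := b2 u (P.symm' b1)
    have c4 : v ≤ t2 := b2 v (P.trans' (P.symm' b1) huv)
    rcases lt_or_gt_of_ne hune with h | h
    · exact (c1.trans_lt h).trans_le c4
    · exact (c2.trans_lt h).trans_le c3
  have hmax : ∀ y, P t1 y → y ≤ t2 := fun y hy => b2 y (P.trans' (P.symm' h12) hy)
  have hL : ∀ w, w ∉ sing P → w < t1 → τ w = true := by
    intro w hw hwt
    by_contra hcon
    have hwf : τ w = false := by simpa using hcon
    have c2 : t1 ≤ v := a2 v (P.trans' (P.symm' a1) huv)
    have c3 : P u w := by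
      rcases hσ u v w (h2 u w hu hwf) (h1 w v (by rw [hwf, hv]) (hwt.trans_le c2)) huv with h | h
      · exact h
      · exact absurd (mem_sing.2 h) hw
    exact absurd (a2 w (P.trans' (P.symm' a1) c3)) (not_le.2 hwt)
  have hR : ∀ w, w ∉ sing P → t2 < w → τ w = false := by
    intro w hw hwt
    by_contra hcon
    have hwf : τ w = true := by simpa using hcon
    have c2 : u ≤ t2 := b2 u (P.symm' b1)
    have c3 : P u w := by
      rcases hσ u v w (h1 u w (by rw [hwf, hu]) (c2.trans_lt hwt)) (h2 w v hwf hv) huv with h | h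
      · exact h
      · exact absurd (mem_sing.2 h) hw
    exact absurd (b2 w (P.trans' (P.symm' b1) c3)) (not_le.2 hwt)
  refine ⟨stM P t1 t2, ?_, ?_, ?_⟩
  · unfold stM
    rw [if_pos (Nat.zero_le _), if_neg (not_cr_zero _)]
  · intro i hi
    have := mixed_step hP h12 hlt a2 hmax hL hR ⟨i, hi⟩
    rw [← lwn_val] at this
    exact this
  · have : stM P t1 t2 n = 6 := by
      unfold stM
      rw [if_neg (by omega), if_neg (by omega), if_neg (not_cr_end _)]
    rw [this]
    rfl

end mixed

theorem path_exists {P : Setoid (Fin n)} {τ : ℕ → Bool} {σ : Equiv.Perm (Fin n)}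
    (hP : Conv 1 P) (hσ : Conv σ P)
    (h1 : ∀ i j : Fin n, τ i = τ j → i < j → σ i < σ j)
    (h2 : ∀ i j : Fin n, τ i = true → τ j = false → σ i < σ j) :
    ∃ st : ℕ → ℕ, (st 0 = 0 ∨ st 0 = 3) ∧
      (∀ i < n, (lwn P i, st (i + 1)) ∈ tr (st i) (τ i)) ∧ fin (st n) = true := by
  by_cases h : ∀ x y, P x y → τ x = τ y
  · obtain ⟨st, a, b, c⟩ := pure_path hP h
    exact ⟨st, Or.inl a, b, c⟩
  · push Not at h
    obtain ⟨x, y, hxy, hne⟩ := h
    cases hx : τ x
    · cases hy : τ y
      · exact absurd (hx.trans hy.symm) hne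
      · obtain ⟨st, a, b, c⟩ := mixed_path hP hσ h1 h2 (P.symm' hxy) hy hx
        exact ⟨st, Or.inr a, b, c⟩
    · cases hy : τ y
      · obtain ⟨st, a, b, c⟩ := mixed_path hP hσ h1 h2 hxy hx hy
        exact ⟨st, Or.inr a, b, c⟩
      · exact absurd (hx.trans hy.symm) hne

theorem finite_setoid' (n : ℕ) (s : Set (Setoid (Fin n))) : s.Finite := by
  have : Finite (Setoid (Fin n)) := by
    apply Finite.of_injective (fun P : Setoid (Fin n) => fun i j => P i j)
    intro P Q h
    apply Setoid.ext
    intro i j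
    exact Iff.of_eq (congrFun (congrFun h i) j)
  exact Set.toFinite s

theorem upper_bound {τ : ℕ → Bool} {σ : Equiv.Perm (Fin n)}
    (h1 : ∀ i j : Fin n, τ i = τ j → i < j → σ i < σ j)
    (h2 : ∀ i j : Fin n, τ i = true → τ j = false → σ i < σ j)
    (k : ℕ) (s : Set (Setoid (Fin n)))
    (hs : ∀ P ∈ s, Conv 1 P ∧ Conv σ P ∧ Nat.card (Quotient P) = k) :
    s.ncard ≤ cnt ((List.range n).map τ) 0 k + cnt ((List.range n).map τ) 3 k := by
  classical
  rw [← length_words, ← length_words]
  refine le_trans ?_ (add_le_add (List.toFinset_card_le _) (List.toFinset_card_le _))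
  refine le_trans ?_ (card_union_le _ _)
  rw [← Set.ncard_coe_finset]
  apply Set.ncard_le_ncard_of_injOn (fun P => (List.range n).map (lwn P))
  · intro P hPs
    obtain ⟨hP, hσ, hk⟩ := hs P hPs
    obtain ⟨st, h3, h4, h5⟩ := path_exists hP hσ h1 h2
    have h6 := mem_words_of_path n τ (lwn P) st h4 h5
    rw [sum_wt, hk] at h6
    rw [mem_coe, mem_union, List.mem_toFinset, List.mem_toFinset]
    rcases h3 with h3 | h3
    · rw [h3] at h6
      exact Or.inl h6
    · rw [h3] at h6
      exact Or.inr h6
  · intro P hPs Q hQs hPQ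
    apply lw_injective (hs P hPs).1 (hs Q hQs).1
    intro x
    have hPQ' : (List.range n).map (lwn P) = (List.range n).map (lwn Q) := hPQ
    rw [List.map_inj_left] at hPQ'
    have := hPQ' x (List.mem_range.2 x.2)
    rwa [lwn_val, lwn_val] at this

end Pool.Agent.K4H74.Phylo
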